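import Pool.Agent.Lib.MP_fa837f_gt.P2.Iface

/-!
Project P2, row WE: derivatives of `al`, `aa`, `nn` in the weights.
-/

set_option autoImplicit false

open Matrix

namespace Pool.Agent.Lib.MP_fa837f_gt.P2.H94

open Pool.Agent.Lib.MP_fa837f_gt.P2

variable {n k : ℕ}

theorem alg_al (b : Fin n → Fin n → ℝ) (τ x v : Fin n → ℝ) (i j : Fin n) :
    τ i * (∑ l, -(b i l * b l j) * v l) -
      ∑ p, ((b i p * (τ p * x p)) * (∑ l, -(b p l * b l j) * v l) +
        b p j * (b i p * (τ p * v p) + (τ p * x p) * (∑ l, -(b i l * b l p) * v l))) =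
    ∑ l, -((τ i * b i l - ∑ p, b i p * (τ p * x p) * b p l) * b l j +
      b i l * (τ l * b l j - ∑ p, b l p * (τ p * x p) * b p j)) * v l := by
  have e1 : ∑ p, ((b i p * (τ p * x p)) * (∑ l, -(b p l * b l j) * v l) +
        b p j * (b i p * (τ p * v p) + (τ p * x p) * (∑ l, -(b i l * b l p) * v l))) =
      (∑ p, ∑ l, (b i p * (τ p * x p)) * (-(b p l * b l j) * v l)) +
      ((∑ p, b p j * (b i p * (τ p * v p))) +
        ∑ p, ∑ l, b p j * ((τ p * x p) * (-(b i l * b l p) * v l))) := by
    rw [← Finset.sum_add_distrib, ← Finset.sum_add_distrib]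
    refine Finset.sum_congr rfl fun p _ => ?_
    rw [mul_add, Finset.mul_sum, Finset.mul_sum, Finset.mul_sum]
  rw [e1, Finset.sum_comm, Finset.sum_comm (f := fun p l => b p j *
    ((τ p * x p) * (-(b i l * b l p) * v l))), Finset.mul_sum, ← Finset.sum_add_distrib,
    ← Finset.sum_add_distrib, ← Finset.sum_sub_distrib]
  refine Finset.sum_congr rfl fun l _ => ?_
  have e2 : ∑ p, (b i p * (τ p * x p)) * (-(b p l * b l j) * v l) =
      -((∑ p, b i p * (τ p * x p) * b p l) * b l j * v l) := by
    rw [Finset.sum_mul, Finset.sum_mul, ← Finset.sum_neg_distrib]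
    refine Finset.sum_congr rfl fun p _ => ?_
    ring
  have e3 : ∑ p, b p j * ((τ p * x p) * (-(b i l * b l p) * v l)) =
      -(b i l * (∑ p, b l p * (τ p * x p) * b p j) * v l) := by
    rw [Finset.mul_sum, Finset.sum_mul, ← Finset.sum_neg_distrib]
    refine Finset.sum_congr rfl fun p _ => ?_
    ring
  rw [e2, e3]
  ring

section

variable {m : Fin n → Fin k → ℝ} {τ r : Fin n → ℝ}

theorem hx (p : Fin n) : HasFDerivAt (fun x : Fin n → ℝ => x p) (prj p) r :=
  (prj p).hasFDerivAt

theorem sum_smul_prj (c : Fin n → ℝ) (v : Fin n → ℝ) :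
    (∑ l, c l • (prj l : (Fin n → ℝ) →L[ℝ] ℝ)) v = ∑ l, c l * v l := by
  simp

theorem al_deriv (hbe : ∀ i j, HasFDerivAt (fun x => be m x i j)
      (∑ l, (-(be m r i l * be m r l j)) • prj l) r) (i j : Fin n) :
    HasFDerivAt (fun x => al m τ x i j)
      (∑ l, (-(al m τ r i l * be m r l j + be m r i l * al m τ r l j)) • prj l) r := by
  have h1 := (hbe i j).const_mul (τ i)
  have h2 := fun p : Fin n => (((hbe i p).mul ((hx (r := r) p).const_mul (τ p))).mul (hbe p j))
  have h3 := HasFDerivAt.fun_sum (u := Finset.univ) (fun p _ => h2 p)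
  have h4 := h1.sub h3
  refine h4.congr_fderiv ?_
  refine ContinuousLinearMap.ext fun v => ?_
  have key := alg_al (be m r) τ r v i j
  rw [sum_smul_prj]
  unfold al
  rw [← key]
  simp only [ContinuousLinearMap.sub_apply, ContinuousLinearMap.smul_apply, smul_eq_mul,
    ContinuousLinearMap.sum_apply, ContinuousLinearMap.add_apply, ContinuousLinearMap.proj_apply,
    Pi.mul_apply]

theorem aa_deriv (hbe : ∀ i j, HasFDerivAt (fun x => be m x i j)
      (∑ l, (-(be m r i l * be m r l j)) • prj l) r) :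
    HasFDerivAt (fun x => aa m τ x) (∑ l, (al m τ r l l) • prj l) r := by
  have h2 := fun i : Fin n => (((hx (r := r) i).const_mul (τ i)).mul (hbe i i))
  have h3 := HasFDerivAt.fun_sum (u := Finset.univ) (fun p _ => h2 p)
  refine h3.congr_fderiv ?_
  refine ContinuousLinearMap.ext fun v => ?_
  rw [sum_smul_prj]
  simp only [ContinuousLinearMap.smul_apply, smul_eq_mul,
    ContinuousLinearMap.sum_apply, ContinuousLinearMap.add_apply, ContinuousLinearMap.proj_apply]
  rw [Finset.sum_add_distrib]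
  have e1 : ∑ i, τ i * r i * (∑ l, -(be m r i l * be m r l i) * v l) =
      ∑ l, -(∑ p, be m r l p * (τ p * r p) * be m r p l) * v l := by
    simp only [Finset.mul_sum]
    rw [Finset.sum_comm]
    refine Finset.sum_congr rfl fun l _ => ?_
    rw [neg_mul, Finset.sum_mul, ← Finset.sum_neg_distrib]
    refine Finset.sum_congr rfl fun p _ => ?_
    ring
  rw [e1, ← Finset.sum_add_distrib]
  refine Finset.sum_congr rfl fun l _ => ?_
  unfold al
  ring

theorem nn_alg (a b : Fin n → Fin n → ℝ) (x v : Fin n → ℝ) (i : Fin n)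
    (hx : ∀ l, x l ≠ 0) (symm : ∀ i j, b i j = b j i)
    (alr : ∀ i l, ∑ j, a i j * x j * b j l = a i l)
    (alz : ∀ i l, ∑ j, b i j * x j * a j l = 0) :
    ∑ j, ((x i * x j) * (2 * a i j * (∑ l, -(a i l * b l j + b i l * a l j) * v l) +
        2 * a j i * (∑ l, -(a j l * b l i + b j l * a l i) * v l)) +
        (a i j ^ 2 + a j i ^ 2) * (x i * v j + x j * v i)) =
    ∑ l, (((if i = l then ∑ j, x i * x j * (a i j ^ 2 + a j i ^ 2) else 0) +
      x i * x l * (a l i ^ 2 - a i l ^ 2) - 2 * (x i * x l * b i l *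
        ∑ j, x j * (a i j * a l j + a j i * a j l))) / x l) * v l := by
  have e1 : ∀ j, (x i * x j) * (2 * a i j * (∑ l, -(a i l * b l j + b i l * a l j) * v l) +
        2 * a j i * (∑ l, -(a j l * b l i + b j l * a l i) * v l)) =
      ∑ l, (-(2 * x i * v l)) * (a i l * (a i j * x j * b j l) + a l i * (b l j * x j * a j i) +
        b i l * (x j * (a i j * a l j + a j i * a j l))) := by
    intro j
    rw [Finset.mul_sum, Finset.mul_sum, ← Finset.sum_add_distrib, Finset.mul_sum]
    refine Finset.sum_congr rfl fun l _ => ?_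
    rw [symm l j, symm l i]
    ring
  have e2 : ∑ j, (x i * x j) * (2 * a i j * (∑ l, -(a i l * b l j + b i l * a l j) * v l) +
        2 * a j i * (∑ l, -(a j l * b l i + b j l * a l i) * v l)) =
      ∑ l, (-(2 * x i * v l)) * (a i l * a i l +
        b i l * ∑ j, (x j * (a i j * a l j + a j i * a j l))) := by
    simp only [e1]
    rw [Finset.sum_comm]
    refine Finset.sum_congr rfl fun l _ => ?_
    rw [← Finset.mul_sum, Finset.sum_add_distrib, Finset.sum_add_distrib, ← Finset.mul_sum,
      ← Finset.mul_sum, ← Finset.mul_sum, alr, alz]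
    ring
  rw [Finset.sum_add_distrib, e2]
  have e3 : ∑ j, (a i j ^ 2 + a j i ^ 2) * (x i * v j + x j * v i) =
      ∑ l, (x i * (a i l ^ 2 + a l i ^ 2) * v l +
        (if i = l then ∑ j, x i * x j * (a i j ^ 2 + a j i ^ 2) else 0) / x l * v l) := by
    rw [Finset.sum_add_distrib]
    have e4 : ∑ l, (if i = l then ∑ j, x i * x j * (a i j ^ 2 + a j i ^ 2) else 0) / x l * v l =
        ∑ j, x j * (a i j ^ 2 + a j i ^ 2) * v i := by
      rw [Finset.sum_eq_single i]
      · rw [if_pos rfl]
        rw [Finset.sum_div, Finset.sum_mul]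
        refine Finset.sum_congr rfl fun j _ => ?_
        have := hx i
        field_simp
      · intro l _ hl
        rw [if_neg (Ne.symm hl)]
        simp
      · intro h
        exact absurd (Finset.mem_univ i) h
    rw [e4, ← Finset.sum_add_distrib]
    refine Finset.sum_congr rfl fun j _ => ?_
    ring
  rw [e3, ← Finset.sum_add_distrib]
  refine Finset.sum_congr rfl fun l _ => ?_
  have := hx l
  field_simp
  ring

theorem nn_deriv (hr : ∀ i, 0 < r i) (hB : BFacts m r) (hA : AFacts m τ r)
    (hal : ∀ i j, HasFDerivAt (fun x => al m τ x i j)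
      (∑ l, (-(al m τ r i l * be m r l j + be m r i l * al m τ r l j)) • prj l) r) (i : Fin n) :
    HasFDerivAt (fun x => nn m τ x i) (∑ l, (nd m τ r i l / r l) • prj l) r := by
  have h2 := fun j : Fin n => (((hx (r := r) i).mul (hx (r := r) j)).mul
    (((hal i j).pow 2).add ((hal j i).pow 2)))
  have h3 := HasFDerivAt.fun_sum (u := Finset.univ) (fun p _ => h2 p)
  refine h3.congr_fderiv ?_
  refine ContinuousLinearMap.ext fun v => ?_
  have key := nn_alg (al m τ r) (be m r) r v i (fun l => (hr l).ne') hB.symm hA.alr hA.alz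
  rw [sum_smul_prj]
  unfold nd nn
  rw [← key]
  simp only [ContinuousLinearMap.smul_apply, smul_eq_mul,
    ContinuousLinearMap.sum_apply, ContinuousLinearMap.add_apply, ContinuousLinearMap.proj_apply,
    nsmul_eq_mul, Nat.cast_ofNat, pow_one, Nat.add_one_sub_one, Pi.add_apply, Pi.mul_apply]

end

/-- Row WE. -/
theorem we_st (hWa : WaStatement) (hWb : WbStatement) (hWd : WdStatement) : WeStatement := by
  intro n k m τ hm r hr
  have hB := hWa n k m r hm hr
  have hA := hWb n k m τ r hm hr
  have hbe := ((hWd n k m hm).2.2 r hr).2.2.2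
  have hal := al_deriv (τ := τ) hbe
  exact ⟨hal, aa_deriv hbe, nn_deriv hr hB hA hal⟩

end Pool.Agent.Lib.MP_fa837f_gt.P2.H94
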